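import Pool.Agent.H89.SC.Lower2

/-!
# Smoothed analysis of conic programs: dimension dependence and arbitrary noise

The data `d = (A, b, c)` of a conic program with closed convex cones `C₁ ⊆ ℝ^m`, `C₂ ⊆ ℝ^n` are
perturbed; `ρ` is the distance to ill-posedness and `C = ‖d‖ / ρ` the condition number.

(1) Gaussian noise. `P[ρ < s] ≤ 1040 √(m n) s / σ` for all cones and all centres, and for normalised
centres `E[log C] ≤ log (m n / σ) + 14`, with the constant one in front of the logarithm. (The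
previous bounds, in the library behind `SharpTails` of this problem, are `128 (m n)² s / σ` and
`12 + (5/2) log (m n) + log (1 / σ)`.)

(2) Arbitrary noise. For independent entries, not identically distributed and without any symmetry,
whose laws give every interval of length `h ≥ r` mass at most `L h` (for `r = 0`: densities bounded by
`L`; `r > 0` allows discrete laws), `P[ρ < s] ≤ 46 (m n)^(3/2) L s` for all `s ≥ r`. For noise `σ ξ`
with densities of the `ξ k` at most one and `E|ξ k| ≤ κ` the answer to the question is positive too: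
`E[log C] ≤ 12 + log κ + (5/2) log (m n) + log (1 / σ)`.

(3) Lower bounds. For all `m`, `n` there are cones such that for every `σ ≤ 1` and suitable normalised
centres `E[log C] ≥ log (1 / σ) - 3` and `E[log C] ≥ (1 / 2) log (m n) - 3`. So the coefficient one of
`log (1 / σ)` is optimal, and the largest value of `E[log C]` is between
`(1 / 3) log (m n / σ) - 3` and `log (m n / σ) + 14`: the order `log (m n / σ)` of the question is exact,
uniformly in `m`, `n` and `σ`.

Idea of (1). If `ρ < s` there is a unit vector `z` in the homogenised cone which is almost feasible,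
and for every linear form `u` with `u z > 0` a unit vector `y` in the dual cone with `yᵀ B x ≤ 0` for all
`x` in the cone with `u x > 0` (or the same for `- Bᵀ`). Along the line `B + τ v uᵀ` the set of such `B`
with `u z, v y ≥ 1 / 2` has diameter at most `4 s`. For sign vectors `u`, `v` the matrix `v uᵀ` has norm
`√(|Q| |R|)`, and by the inequality of Paley and Zygmund for every `z` a proportion at least `3 / 32` of
all `u`, and then for every `y` a proportion at least `3 / 32` of all `v`, satisfies these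
conditions. So a nearly ill-posed matrix lies in a positive proportion of exceptional sets, each of
which has short intersections with the lines of one direction: there is no sum over the `m n` entries.
Slices in the direction of a sign matrix are short for the Gaussian measure by its rotation
invariance; slices in coordinate directions are short for every product measure.
-/

set_option autoImplicit false

open MeasureTheory
open scoped ENNReal

namespace Pool.Agent.Results.MP_722786_an.DimensionAndNoise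

open Pool.Agent.H836R3 Pool.Agent.H89.SC

/-- **Smoothed condition numbers of conic programs.** -/
theorem result :
    (∀ m n : ℕ, 1 ≤ m → 1 ≤ n → ∀ (C₁ : Set (Fin m → ℝ)) (C₂ : Set (Fin n → ℝ)),
      IsClosedConvexCone C₁ → IsClosedConvexCone C₂ → ∀ (a : Data m n) (σ : ℝ), 0 < σ →
        Measurable (rho C₁ C₂ : Data m n → ℝ≥0∞) ∧ Measurable (condNum C₁ C₂ : Data m n → ℝ≥0∞) ∧
        (∀ s : ℝ, 0 ≤ s → gaussPi a σ {d | rho C₁ C₂ d < ENNReal.ofReal s} ≤
          ENNReal.ofReal (1040 * Real.sqrt (m * n) * s / σ)) ∧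
        (∀ t : ℝ, 0 < t → gaussPi a σ {d | ENNReal.ofReal t ≤ condNum C₁ C₂ d} ≤
          ENNReal.ofReal (37440 * Real.sqrt (m * n) * (frob a / σ + Real.sqrt (m * n)) / t)) ∧
        (∀ p : ℝ, 0 < p → p < 1 → ∫⁻ d, condNum C₁ C₂ d ^ p ∂(gaussPi a σ) ≤
          ENNReal.ofReal
            ((37440 * Real.sqrt (m * n) * (frob a / σ + Real.sqrt (m * n))) ^ p / (1 - p))) ∧
        (frob a ≤ 1 → σ ≤ 1 →
          ∫⁻ d, (ENNReal.log (condNum C₁ C₂ d)).toENNReal ∂(gaussPi a σ) ≤
            ENNReal.ofReal (Real.log (m * n / σ) + 14) ∧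
          expect (gaussPi a σ) (fun d => ENNReal.log (condNum C₁ C₂ d)) ≤
            ((Real.log (m * n / σ) + 14 : ℝ) : EReal))) ∧
    (∀ m n : ℕ, 1 ≤ m → 1 ≤ n → ∀ (C₁ : Set (Fin m → ℝ)) (C₂ : Set (Fin n → ℝ)),
      IsClosedConvexCone C₁ → IsClosedConvexCone C₂ →
      ∀ μ : (Fin m × Fin n) ⊕ (Fin m ⊕ Fin n) → Measure ℝ, (∀ k, IsProbabilityMeasure (μ k)) →
        ∀ L r : ℝ, 0 ≤ L → (∀ k, Spread (μ k) L r) → ∀ s : ℝ, 0 ≤ s → r ≤ s →
          Measure.pi μ {d : Data m n | rho C₁ C₂ d < ENNReal.ofReal s} ≤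
            ENNReal.ofReal (46 * ((m : ℝ) * n * Real.sqrt (m * n)) * L * s)) ∧
    (∀ m n : ℕ, 1 ≤ m → 1 ≤ n → ∀ (C₁ : Set (Fin m → ℝ)) (C₂ : Set (Fin n → ℝ)),
      IsClosedConvexCone C₁ → IsClosedConvexCone C₂ →
      ∀ ν : (Fin m × Fin n) ⊕ (Fin m ⊕ Fin n) → Measure ℝ, (∀ k, IsProbabilityMeasure (ν k)) →
        ∀ κ : ℝ, 1 ≤ κ → (∀ k, Spread (ν k) 1 0) → (∀ k, ∫⁻ x, ‖x‖ₑ ∂(ν k) ≤ ENNReal.ofReal κ) →
        ∀ (a : Data m n) (σ : ℝ), frob a ≤ 1 → 0 < σ → σ ≤ 1 →
          ∫⁻ d, (ENNReal.log (condNum C₁ C₂ d)).toENNReal ∂(noisy a σ ν) ≤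
            ENNReal.ofReal
              (12 + Real.log κ + 5 / 2 * Real.log (m * n) + Real.log (1 / σ)) ∧
          expect (noisy a σ ν) (fun d => ENNReal.log (condNum C₁ C₂ d)) ≤
            ((12 + Real.log κ + 5 / 2 * Real.log (m * n) + Real.log (1 / σ) : ℝ) : EReal)) ∧
    (∀ m n : ℕ, 1 ≤ m → 1 ≤ n → ∃ (C₁ : Set (Fin m → ℝ)) (C₂ : Set (Fin n → ℝ)),
      IsClosedConvexCone C₁ ∧ IsClosedConvexCone C₂ ∧ ∀ σ : ℝ, 0 < σ → σ ≤ 1 →
        (∃ a : Data m n, frob a ≤ 1 ∧ ((Real.log (1 / σ) - 3 : ℝ) : EReal) ≤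
          expect (gaussPi a σ) (fun d => ENNReal.log (condNum C₁ C₂ d))) ∧
        (∃ a : Data m n, frob a ≤ 1 ∧ ((1 / 2 * Real.log (m * n) - 3 : ℝ) : EReal) ≤
          expect (gaussPi a σ) (fun d => ENNReal.log (condNum C₁ C₂ d))) ∧
        (∃ a : Data m n, frob a ≤ 1 ∧ ((1 / 3 * Real.log (m * n / σ) - 3 : ℝ) : EReal) ≤
          expect (gaussPi a σ) (fun d => ENNReal.log (condNum C₁ C₂ d)))) := by
  refine ⟨fun m n hm hn C₁ C₂ h1 h2 a σ hσ =>
    ⟨measurable_rho h1 h2, measurable_condNum h1 h2, ?_, ?_, ?_, ?_⟩, ?_, ?_, ?_⟩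
  · intro s hs
    exact rho_tail hm hn h1 h2 a hσ hs
  · intro t ht
    exact tail hm hn h1 h2 a hσ ht
  · intro p hp hp1
    have hm1 : (1 : ℝ) ≤ m := by exact_mod_cast hm
    have hn1 : (1 : ℝ) ≤ n := by exact_mod_cast hn
    have hfa : 0 ≤ frob a / σ := div_nonneg (frob_nonneg a) hσ.le
    have hs : 0 < Real.sqrt ((m : ℝ) * n) := Real.sqrt_pos.2 (by positivity)
    have hQ : 0 < 37440 * Real.sqrt (m * n) * (frob a / σ + Real.sqrt (m * n)) := by positivity
    exact Pool.Agent.Y980.SC.mom (gaussPi a σ) _ (measurable_condNum h1 h2) hQ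
      (fun t ht => tail hm hn h1 h2 a hσ ht) hp hp1
  · intro ha hσ1
    exact expect_le hm hn h1 h2 a hσ ha hσ1
  · intro m n hm hn C₁ C₂ h1 h2 μ hμ L r hL hS s hs hrs
    exact rho_tail_gen hm hn h1 h2 μ hL hS hs hrs
  · intro m n hm hn C₁ C₂ h1 h2 ν hν κ hκ hS hν1 a σ ha hσ hσ1
    exact noise_log hm hn h1 h2 ν hκ hS hν1 a ha hσ hσ1
  · intro m n hm hn
    refine ⟨hs ⟨0, by omega⟩, {0}, cone_hs _, cone_zero, fun σ hσ hσ1 => ?_⟩
    have A1 : frob (Pi.single (Sum.inr (Sum.inr (⟨0, by omega⟩ : Fin n))) 1 : Data m n) ≤ 1 := by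
      rw [frob_single, abs_one]
    have A2 : frob (0 : Data m n) ≤ 1 := by
      unfold frob
      simp
    have B1 := lower_sigma (m := m) (n := n) ⟨0, by omega⟩ ⟨0, by omega⟩ hσ
    have B2 := lower_dim (m := m) (n := n) ⟨0, by omega⟩ ⟨0, by omega⟩ hσ
    refine ⟨⟨_, A1, B1⟩, ⟨_, A2, B2⟩, ?_⟩
    have hm1 : (1 : ℝ) ≤ m := by exact_mod_cast hm
    have hn1 : (1 : ℝ) ≤ n := by exact_mod_cast hn
    have hsplit : Real.log ((m : ℝ) * n / σ) = Real.log ((m : ℝ) * n) + Real.log (1 / σ) := by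
      rw [div_eq_mul_one_div, Real.log_mul (by positivity) (by positivity)]
    rcases le_total (1 / 2 * Real.log ((m : ℝ) * n)) (Real.log (1 / σ)) with h | h
    · refine ⟨_, A1, le_trans ?_ B1⟩
      rw [hsplit]
      exact EReal.coe_le_coe_iff.2 (by linarith)
    · refine ⟨_, A2, le_trans ?_ B2⟩
      rw [hsplit]
      exact EReal.coe_le_coe_iff.2 (by linarith)

end Pool.Agent.Results.MP_722786_an.DimensionAndNoise
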